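import Pool.Agent.Work.MP_d45015_al.Main

/-! # equations `∏ V cᵢ V⁻¹ aᵢ = 1` with commuting `cᵢ` -/

namespace Pool.Agent.Results.MP_d45015_al.CommutingConjugates

open Monoid Function

/-- The equation `w = 1`, `w` in the free product of `G` and the infinite cyclic group on `x`,
is soluble over `G`: there is a group `H`, an injective homomorphism `ι : G → H` and `h : H` such
that the homomorphism that is `ι` on `G` and sends `x` to `h` kills `w`. -/
def Soluble {G : Type} [Group G] (w : Coprod G (Multiplicative ℤ)) : Prop :=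
  ∃ (H : Type) (_ : Group H) (ι : G →* H) (h : H), Injective ι ∧
    Coprod.lift ι (zpowersHom H h) w = 1

/-- the letter `x` -/
def X (G : Type) [Group G] : Coprod G (Multiplicative ℤ) := Coprod.inr (Multiplicative.ofAdd 1)

/-- an element of `G` as a coefficient -/
def co {G : Type} [Group G] (g : G) : Coprod G (Multiplicative ℤ) := Coprod.inl g

/-- the positive word `x b₁ x b₂ .. x b_m` -/
def V {G : Type} [Group G] {m : ℕ} (b : Fin m → G) : Coprod G (Multiplicative ℤ) :=
  (List.ofFn fun j => X G * co (b j)).prod

/-- Let `V = x b₁ .. x b_m` (`m ≥ 1`) be a positive word, `c₁, .., c_n` elements of a group `G`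
which commute with the product `c₁ .. c_n` (for instance with each other), and suppose that some
homomorphism `χ` from the subgroup generated by the `cᵢ` to `ℤ` is nonnegative on every `cᵢ` and
positive on one of them. If `a₁ .. a_n` has infinite order, the equation
`V c₁ V⁻¹ a₁ V c₂ V⁻¹ a₂ .. V c_n V⁻¹ a_n = 1` is soluble over `G`. -/
theorem result (G : Type) [Group G] (m n : ℕ) (hm : 1 ≤ m) (b : Fin m → G) (c a : Fin n → G)
    (hcomm : ∀ i, Commute (c i) (List.ofFn c).prod)
    (χ : Subgroup.closure (Set.range c) →* Multiplicative ℤ)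
    (hχ : ∀ i, 0 ≤ (χ ⟨c i, Subgroup.subset_closure (Set.mem_range_self i)⟩).toAdd)
    (hχ' : ∃ i, 0 < (χ ⟨c i, Subgroup.subset_closure (Set.mem_range_self i)⟩).toAdd)
    (ha : ¬ IsOfFinOrder (List.ofFn a).prod) :
    Soluble (List.ofFn fun i => V b * co (c i) * (V b)⁻¹ * co (a i)).prod := by
  have e1 : (List.ofFn fun i => (c i, a i)).map Prod.fst = List.ofFn c := by
    rw [List.map_ofFn]
    rfl
  have e2 : (List.ofFn fun i => (c i, a i)).map Prod.snd = List.ofFn a := by
    rw [List.map_ofFn]
    rfl
  have hmem : ∀ p ∈ (List.ofFn fun i => (c i, a i)), p.1 ∈ Subgroup.closure (Set.range c) := by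
    intro p hp
    obtain ⟨i, rfl⟩ := (List.mem_ofFn' _ _).1 hp
    exact Subgroup.subset_closure (Set.mem_range_self i)
  obtain ⟨H, _, ι, h, hι, hw⟩ := Pool.Agent.Work.MP_d45015_al.main
    (List.ofFn fun i => (c i, a i)) (List.ofFn b)
    (by
      intro h0
      have := congrArg List.length h0
      simp at this
      omega)
    (Subgroup.closure (Set.range c)) hmem
    (by
      rw [e1]
      intro g hg
      have h1 : Subgroup.closure (Set.range c) ≤ Subgroup.centralizer {(List.ofFn c).prod} := by
        rw [Subgroup.closure_le]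
        rintro _ ⟨i, rfl⟩
        rw [SetLike.mem_coe, Subgroup.mem_centralizer_iff]
        intro y hy
        rw [Set.mem_singleton_iff] at hy
        rw [hy]
        exact (hcomm i).eq.symm
      have h2 := (Subgroup.mem_centralizer_iff.1 (h1 hg)) _ (Set.mem_singleton _)
      exact h2.symm)
    χ
    (by
      intro p hp
      obtain ⟨i, rfl⟩ := (List.mem_ofFn' _ _).1 hp
      exact hχ i)
    (by
      obtain ⟨i, hi⟩ := hχ'
      exact ⟨(c i, a i), (List.mem_ofFn' _ _).2 ⟨i, rfl⟩, hi⟩)
    (by
      rw [e2]
      exact ha)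
  refine ⟨H, inferInstance, ι, h, hι, ?_⟩
  have hV : Coprod.lift ι (zpowersHom H h) (V b) =
      Pool.Agent.Work.MP_d45015_al.evalPos ι h (List.ofFn b) := by
    unfold V Pool.Agent.Work.MP_d45015_al.evalPos
    rw [map_list_prod, List.map_ofFn, List.map_ofFn]
    congr 2
    funext j
    simp [X, co, zpowersHom_apply]
  rw [← hw, map_list_prod, List.map_ofFn, List.map_ofFn]
  congr 2
  funext i
  simp [hV, co]

end Pool.Agent.Results.MP_d45015_al.CommutingConjugates
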