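import Pool.Agent.Work.MP_d45015_al.HW.NotLI

/-! # Singular equations over the Hantzsche-Wendt group and the groups `G_S` -/

namespace Pool.Agent.Results.MP_d45015_al.HantzscheWendt

open Monoid Function Pool.Agent.Work.MP_d45015_al.HW

/-- The equation `w = 1`, `w` in the free product of `G` and the infinite cyclic group on `x`,
is soluble over `G`: there is a group `H`, an injective homomorphism `ι : G → H` and `h : H` such
that the homomorphism that is `ι` on `G` and sends `x` to `h` kills `w`. -/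
def Soluble {G : Type} [Group G] (w : Coprod G (Multiplicative ℤ)) : Prop :=
  ∃ (H : Type) (_ : Group H) (ι : G →* H) (h : H), Injective ι ∧
    Coprod.lift ι (zpowersHom H h) w = 1

/-- the letter `x` -/
def X (G : Type) [Group G] : Coprod G (Multiplicative ℤ) := Coprod.inr (Multiplicative.ofAdd 1)

/-- an element of `G` as a coefficient -/
def co {G : Type} [Group G] (g : G) : Coprod G (Multiplicative ℤ) := Coprod.inl g

/-- the product, in order, of the coefficients at level `h` of a list of pairs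
(level, coefficient) -/
def levelProd {A : Type} [Group A] (w : List (ℤ × A)) (h : ℤ) : A :=
  ((w.filter fun p => p.1 = h).map Prod.snd).prod

/-- some homomorphism to `ℤ/2` does not vanish at `g` -/
def OddElt {A : Type} [Group A] (g : A) : Prop :=
  ∃ ε : A →* Multiplicative (ZMod 2), ε g ≠ 1

/-- every nontrivial finitely generated subgroup has a nontrivial homomorphism to `ℤ` -/
def LocallyIndicable (A : Type) [Group A] : Prop :=
  ∀ H : Subgroup A, H.FG → H ≠ ⊥ → ∃ φ : H →* Multiplicative ℤ, φ ≠ 1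

/-- Let `S` be a set with at least two elements. The group `G_S` is torsion-free and, if `S` is
finite, not locally indicable; `G_2` is the Hantzsche-Wendt group.
(1) A singular equation `∏ x^{lᵢ} gᵢ x^{-lᵢ} = 1` with coefficients in a copy of `G_S` in a group
`G` is soluble over `G` if the products of the coefficients at two levels are odd.
(2) An equation `a₁ x b₁ x⁻¹ ⋯ aₙ x bₙ x⁻¹ = 1` over a group `G`, `aᵢ` in a copy of `G_S` and `bᵢ`
in a copy of `G_T`, is soluble over `G` if `a₁ ⋯ aₙ` and `b₁ ⋯ bₙ` are odd. -/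
theorem result :
    (∀ (S : Type) [Nontrivial S] (G : Type) [Group G] (j : GS S →* G), Injective j →
      ∀ (w : List (ℤ × GS S)) (h₁ h₂ : ℤ), h₁ ≠ h₂ →
        OddElt (levelProd w h₁) → OddElt (levelProd w h₂) →
        Soluble (w.map fun p => X G ^ p.1 * co (j p.2) * X G ^ (-p.1)).prod) ∧
    (∀ (S T : Type) [Nontrivial S] [Nontrivial T] (G : Type) [Group G]
      (jA : GS S →* G) (jB : GS T →* G), Injective jA → Injective jB →
      ∀ w : List (GS S × GS T), OddElt (w.map Prod.fst).prod → OddElt (w.map Prod.snd).prod →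
        Soluble (w.map fun p => co (jA p.1) * (X G * co (jB p.2) * (X G)⁻¹)).prod) ∧
    Nonempty (HWGroup ≃* GS (Fin 2)) ∧
    (∀ (S : Type) [Nontrivial S] (g : GS S), g ≠ 1 → ∀ n : ℕ, n ≠ 0 → g ^ n ≠ 1) ∧
    (∀ (S : Type) [Nontrivial S] [Finite S], ¬ LocallyIndicable (GS S)) := by
  refine ⟨?_, ?_, ⟨hwEquiv⟩, ?_, ?_⟩
  · intro S _ G _ j hj w h₁ h₂ h12 hh1 hh2
    obtain ⟨H, _, ι, x, hι, hw⟩ := mainGS j hj w h12 hh1 hh2
    refine ⟨H, inferInstance, ι, x, hι, ?_⟩
    rw [← hw, map_list_prod, List.map_map]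
    congr 2
    funext p
    simp [X, co, zpowersHom_apply]
  · intro S T _ _ G _ jA jB hjA hjB w ha hb
    have hq : ∀ {U : Type} [Nontrivial U] {g : GS U}, OddElt g → (dataGS U).q g ≠ 0 := by
      intro U _ g hg
      have h1 := lev_ne [((0 : ℤ), g)] 0 (by
        obtain ⟨ε, hε⟩ := hg
        exact ⟨ε, by simpa using hε⟩)
      have h2 : (dataGS U).lev [((0 : ℤ), g)] 0 = (dataGS U).q g := by simp [Data.lev]
      rwa [h2] at h1
    obtain ⟨H, _, ιA, ιB, hA, hB, hw⟩ := two_core (dataGS S) (dataGS T) w (hq ha) (hq hb)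
    obtain ⟨K, _, ι, x, hι, hx⟩ := two_level jA jB hjA hjB ιA ιB hA hB w hw
    refine ⟨K, inferInstance, ι, x, hι, ?_⟩
    rw [← hx, map_list_prod, List.map_map]
    congr 2
    funext p
    simp [X, co, zpowersHom_apply]
  · intro S _ g hg n hn
    exact (dataGS S).torsionFree hg hn
  · intro S _ _ hLI
    obtain ⟨H, h1, h2, h3⟩ := not_li (S := S)
    obtain ⟨φ, hφ⟩ := hLI H h1 h2
    exact hφ (h3 φ)

end Pool.Agent.Results.MP_d45015_al.HantzscheWendt
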